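import Pool.Agent.X171.EL.Stm

set_option autoImplicit false

/-!
# The part `S_DIST`
-/

open MeasureTheory Set Filter
open scoped ENNReal

namespace Pool.Agent.X25.EL

open Pool.Agent.X171.ED Pool.Agent.X171.LS Pool.Agent.X171.EL

theorem half_lo : LpI.μ.real (Iic (1 / 2 : ℝ)) = 1 / 2 := by
  unfold LpI.μ
  rw [measureReal_def, Measure.restrict_apply measurableSet_Iic,
    show Iic (1 / 2 : ℝ) ∩ Ioc 0 1 = Ioc 0 (1 / 2) by
      ext t
      simp only [mem_inter_iff, mem_Iic, mem_Ioc]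
      constructor
      · rintro ⟨h1, h2, h3⟩; exact ⟨h2, h1⟩
      · rintro ⟨h1, h2⟩; exact ⟨h2, h1, by linarith⟩,
    Real.volume_Ioc, ENNReal.toReal_ofReal (by norm_num)]
  norm_num

theorem half_hi : LpI.μ.real (Ioi (1 / 2 : ℝ)) = 1 / 2 := by
  unfold LpI.μ
  rw [measureReal_def, Measure.restrict_apply measurableSet_Ioi,
    show Ioi (1 / 2 : ℝ) ∩ Ioc 0 1 = Ioc (1 / 2) 1 by
      ext t
      simp only [mem_inter_iff, mem_Ioi, mem_Ioc]
      constructor
      · rintro ⟨h1, h2, h3⟩; exact ⟨h1, h3⟩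
      · rintro ⟨h1, h2⟩; exact ⟨h1, by linarith, h2⟩,
    Real.volume_Ioc, ENNReal.toReal_ofReal (by norm_num)]
  norm_num

theorem core (x : XX) (c : ℝ) {A : Set ℝ} (hA : MeasurableSet A) (h1 : LpI.μ.real A = 1 / 2)
    (h2 : LpI.μ.real Aᶜ = 1 / 2) (hx : ∀ᵐ t ∂LpI.μ, t ∈ A → x t = 0) :
    ‖x‖ ≤ ‖x - c • Lp.const 1 LpI.μ (1 : ℝ)‖ := by
  rw [L1.norm_eq_integral_norm, L1.norm_eq_integral_norm, ← sub_nonneg]
  have hxi : Integrable x LpI.μ := L1.integrable_coeFn x
  have hyi : Integrable (x - c • Lp.const 1 LpI.μ (1 : ℝ) : XX) LpI.μ := L1.integrable_coeFn _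
  rw [← integral_sub hyi.norm hxi.norm]
  have hint : ∀ B : Set ℝ, MeasurableSet B → Integrable (B.indicator (fun _ => |c|)) LpI.μ :=
    fun B hB => (integrable_const _).indicator hB
  have hI : ∫ t, (A.indicator (fun _ => |c|) t - Aᶜ.indicator (fun _ => |c|) t) ∂LpI.μ = 0 := by
    rw [integral_sub (hint A hA) (hint _ hA.compl), integral_indicator_const _ hA,
      integral_indicator_const _ hA.compl, h1, h2, sub_self]
  refine le_of_eq_of_le hI.symm ?_
  apply integral_mono_ae ((hint A hA).sub (hint _ hA.compl)) (hyi.norm.sub hxi.norm)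
  have e1 := Lp.coeFn_sub x (c • Lp.const 1 LpI.μ (1 : ℝ))
  have e2 := Lp.coeFn_smul c (Lp.const 1 LpI.μ (1 : ℝ))
  have e3 := Lp.coeFn_const (p := 1) (μ := LpI.μ) (1 : ℝ)
  filter_upwards [e1, e2, e3, hx] with t t1 t2 t3 t4
  have e4 : (x - c • Lp.const 1 LpI.μ (1 : ℝ) : XX) t = x t - c := by
    rw [t1, Pi.sub_apply, t2, Pi.smul_apply, t3]
    simp
  show A.indicator (fun _ => |c|) t - Aᶜ.indicator (fun _ => |c|) t ≤
    ‖(x - c • Lp.const 1 LpI.μ (1 : ℝ) : XX) t‖ - ‖x t‖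
  rw [e4, Real.norm_eq_abs, Real.norm_eq_abs]
  by_cases ht : t ∈ A
  · rw [indicator_of_mem ht, indicator_of_notMem (by simpa using ht), t4 ht, zero_sub, abs_neg,
      abs_zero]
  · rw [indicator_of_notMem ht, indicator_of_mem (by simpa using ht)]
    have := abs_sub_abs_le_abs_sub (x t) (x t - c)
    rw [sub_sub_cancel] at this
    linarith

theorem t_DIST : Pool.Agent.X171.EL.S_DIST := by
  intro x hx c
  have e : (Iic (1 / 2 : ℝ))ᶜ = Ioi (1 / 2) := by
    ext t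
    simp
  have e' : (Ioi (1 / 2 : ℝ))ᶜ = Iic (1 / 2) := by
    ext t
    simp
  rcases hx with h | h
  · exact core x c measurableSet_Iic half_lo (by rw [e]; exact half_hi) h
  · exact core x c measurableSet_Ioi half_hi (by rw [e']; exact half_lo) h

end Pool.Agent.X25.EL
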